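import Pool.Agent.R722.CA.Stm

set_option autoImplicit false

namespace Pool.Agent.R722.CA

open MeasureTheory Pool.R874.Assoc

theorem adj (h : S_PRE) : S_ADJ := by
  intro X D _ _ _ _ _ _ _ _ _ _ _ _ C hT1 m hm
  obtain ⟨-, hpre, -, -, -⟩ := h X D C hT1
  obtain ⟨-, -, hA⟩ := hm
  have key : ∀ (x : X) (h : D) (f : D → ℝ) (g : X → ℝ), CC f → CC g →
      ∫ y, f (C.pi x y) * T C h g y ∂m = ∫ y, tr C.H f (C.pi x y) (C.H.inv h) * g y ∂m := by
    intro x h f g hf hg
    have h1 := hA h (fun y => f (C.pi x y)) g (hpre x f hf).1 (hpre x f hf).2 hg.1 hg.2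
    have h2 : (fun y => ∫ z, f (C.pi x z) ∂(C.K y (C.H.inv h) : Measure X)) =
        fun y => tr C.H f (C.pi x y) (C.H.inv h) := by
      funext y
      exact hT1 x y (C.H.inv h) f hf.1 hf.2
    have h3 : ∀ y, ∫ z, f (C.pi x z) ∂(C.K y (C.H.inv h) : Measure X) =
        tr C.H f (C.pi x y) (C.H.inv h) := fun y => congrFun h2 y
    simp only [h3] at h1
    exact h1.symm
  refine ⟨key, ?_⟩
  intro x h f g hf hg
  have h1 := key x h f (fun y => g (C.pi x y)) hf (hpre x g hg)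
  have h3 : ∀ y, T C h (fun y => g (C.pi x y)) y = tr C.H g (C.pi x y) h := fun y =>
    hT1 x y h g hg.1 hg.2
  simp only [h3] at h1
  exact h1.symm

end Pool.Agent.R722.CA
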