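import Pool.Agent.R722.CA.Stm

/-!
# CA-BUMP: symmetric bump functions at `e` with two uniform estimates
-/

set_option autoImplicit false

namespace Pool.Agent.R722.CA

open MeasureTheory Pool.R874.Assoc Set

theorem bump (_h1 : S_UN) (_h2 : S_CT) (_h3 : S_FS) (h4 : S_PI) (h5 : S_PRE) : S_BUMP := by
  intro X D _ _ _ _ _ _ _ _ _ _ _ _ C hT m hm x f g hf hg ε hε
  obtain ⟨p1, p2, p3, p4⟩ := h4 X D C hT
  obtain ⟨r1, r2, r3, r4, r5⟩ := h5 X D C hT
  haveI : m.Regular := hm.1
  haveI : m.IsOpenPosMeasure := hm.2.1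
  -- part (a)
  have ca : Continuous fun p : X × D => |T C p.2 g p.1 - T C p.2 g x| := by
    have c1 := r4 g hg
    have c2 : Continuous fun p : X × D => T C p.2 g x :=
      c1.comp (continuous_const.prodMk continuous_snd)
    exact (c1.sub c2).abs
  have oa : IsOpen {p : X × D | |T C p.2 g p.1 - T C p.2 g x| < ε} :=
    isOpen_lt ca continuous_const
  have sa : ({x} : Set X) ×ˢ tsupport f ⊆ {p : X × D | |T C p.2 g p.1 - T C p.2 g x| < ε} := by
    rintro ⟨y, h⟩ ⟨hy, _⟩
    have hy' : y = x := hy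
    show |T C h g y - T C h g x| < ε
    rw [hy', sub_self, abs_zero]
    exact hε
  obtain ⟨V, W, hV, hW, hxV, hfW, hVW⟩ := generalized_tube_lemma isCompact_singleton hf.2 oa sa
  have hxV' : x ∈ V := hxV rfl
  set U1 : Set D := {h | (C.K x h : Measure X).support ⊆ V} with hU1
  have oU1 : IsOpen U1 := by
    have h := (C.support_continuous V hV).1
    exact h.preimage (f := fun h : D => ((x, h) : X × D)) (by fun_prop)
  have eU1 : C.H.e ∈ U1 := by
    intro y hy
    have h := (C.mem_support x y C.H.e).1 hy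
    rw [p2 x y h]
    exact hxV'
  have U1V : ∀ y, C.pi x y ∈ U1 → y ∈ V := fun y hy =>
    hy ((C.mem_support x y (C.pi x y)).2 rfl)
  -- part (b)
  have cb : Continuous fun p : D × D => |tr C.H f p.1 p.2 - f p.2| :=
    ((r5 f hf).sub (hf.1.comp continuous_snd)).abs
  have ob : IsOpen {p : D × D | |tr C.H f p.1 p.2 - f p.2| < ε} := isOpen_lt cb continuous_const
  have cpi : Continuous (C.pi x) :=
    C.pi_continuous.comp (continuous_const.prodMk continuous_id)
  have cK2 : IsCompact (C.pi x '' tsupport g) := hg.2.isCompact.image cpi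
  have sb : ({C.H.e} : Set D) ×ˢ (C.pi x '' tsupport g) ⊆
      {p : D × D | |tr C.H f p.1 p.2 - f p.2| < ε} := by
    rintro ⟨h, l⟩ ⟨hh, _⟩
    have hh' : h = C.H.e := hh
    show |tr C.H f h l - f l| < ε
    have e1 : tr C.H f C.H.e l = f l := by
      unfold tr
      rw [C.H.e_conv l, integral_dirac]
    rw [hh', e1, sub_self, abs_zero]
    exact hε
  obtain ⟨U2, W2, hU2, hW2, heU2, hKW, hUW⟩ := generalized_tube_lemma isCompact_singleton cK2 ob sb
  have heU2' : C.H.e ∈ U2 := heU2 rfl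
  -- the bump
  obtain ⟨ψ, hψ1, hψ0, hψc, hψI⟩ := exists_continuous_one_zero_of_isCompact
    (s := ({C.H.e} : Set D)) (t := (U1 ∩ U2)ᶜ) isCompact_singleton
    (oU1.inter hU2).isClosed_compl (by
      rw [Set.disjoint_left]
      intro z hz hz2
      have hz' : z = C.H.e := hz
      rw [hz'] at hz2
      exact hz2 ⟨eU1, heU2'⟩)
  have hψU : ∀ l, ψ l ≠ 0 → l ∈ U1 ∩ U2 := by
    intro l hl
    by_contra hcon
    exact hl (hψ0 hcon)
  have hψe : ψ C.H.e = 1 := hψ1 rfl
  refine ⟨fun l => ψ l * ψ (C.H.inv l), ⟨ψ.continuous.mul (ψ.continuous.comp C.H.inv_continuous),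
    hψc.mul_right⟩, fun l => mul_nonneg (hψI l).1 (hψI _).1, fun l => ?_, ?_, ?_, ?_⟩
  · show ψ (C.H.inv l) * ψ (C.H.inv (C.H.inv l)) = ψ l * ψ (C.H.inv l)
    rw [C.H.inv_inv, mul_comm]
  · have hcc : CC fun l => ψ l * ψ (C.H.inv l) :=
      ⟨ψ.continuous.mul (ψ.continuous.comp C.H.inv_continuous), hψc.mul_right⟩
    have h := r2 x (fun l => ψ l * ψ (C.H.inv l)) hcc
    refine Continuous.integral_pos_of_hasCompactSupport_nonneg_nonzero (x := x) h.1 h.2
      (fun y => mul_nonneg (hψI _).1 (hψI _).1) ?_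
    show ψ (C.pi x x) * ψ (C.H.inv (C.pi x x)) ≠ 0
    rw [p1, p4, hψe]
    norm_num
  · intro y h hφ hfh
    have hy : y ∈ V := U1V y (hψU _ (left_ne_zero_of_mul hφ)).1
    have hh : h ∈ W := hfW (subset_tsupport f hfh)
    exact le_of_lt (hVW (Set.mk_mem_prod hy hh))
  · intro h y hφ hgy
    have hh : h ∈ U2 := (hψU _ (left_ne_zero_of_mul hφ)).2
    have hy : C.pi x y ∈ W2 := hKW ⟨y, subset_tsupport g hgy, rfl⟩
    exact le_of_lt (hUW (Set.mk_mem_prod hh hy))

end Pool.Agent.R722.CA
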