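import Pool.Agent.R722.CA.Stm

/-!
# CA-CT, CA-FS
-/

set_option autoImplicit false

namespace Pool.Agent.R722.CA

open MeasureTheory Pool.R874.Assoc

/-- piece CA-CT -/
theorem ct : S_CT := by
  intro Z Y _ _ _ _ κ hκ g hg
  obtain ⟨hgc, hgs⟩ := hg
  obtain ⟨C, hC⟩ := hgs.exists_bound_of_continuous hgc
  let G : BoundedContinuousFunction Y ℝ := BoundedContinuousFunction.ofNormedAddCommGroup g hgc C hC
  rw [continuous_iff_continuousAt]
  intro z
  have h1 := hκ.tendsto z
  rw [ProbabilityMeasure.tendsto_iff_forall_integral_tendsto] at h1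
  exact h1 G

/-- piece CA-FS -/
theorem fs : S_FS := by
  intro Y _ _ _ _ μ _
  have h1 : ∀ᵐ y ∂μ, y ∈ μ.support := Measure.support_mem_ae
  refine ⟨h1, fun g c hg => ?_⟩
  have h2 : g =ᵐ[μ] fun _ => c := h1.mono fun y hy => hg y hy
  rw [integral_congr_ae h2]
  simp

end Pool.Agent.R722.CA
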