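import Pool.Agent.R722.CA.Stm

/-!
# MP_3f01e7_al (project CA): disintegration
-/

set_option autoImplicit false

namespace Pool.Agent.R722.CA

open MeasureTheory Pool.R874.Assoc

namespace DisP

lemma key {X : Type} [MeasurableSpace X] (m : Measure X) (F H w : X → ℝ)
    (hF : AEStronglyMeasurable F m) (hH : Integrable H m) (hw : Integrable w m)
    (hb : ∀ z, |F z - H z| ≤ w z) : |∫ z, F z ∂m - ∫ z, H z ∂m| ≤ ∫ z, w z ∂m := by
  have h1 : Integrable (fun z => F z - H z) m :=
    hw.mono' (hF.sub hH.aestronglyMeasurable) (Filter.Eventually.of_forall hb)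
  have h2 : Integrable F m := by
    have := h1.add hH
    refine this.congr (Filter.Eventually.of_forall fun z => ?_)
    simp
  rw [← integral_sub h2 hH]
  have h3 := norm_integral_le_of_norm_le (f := fun z => F z - H z) (μ := m) hw
    (Filter.Eventually.of_forall fun z => by rw [Real.norm_eq_abs]; exact hb z)
  rwa [Real.norm_eq_abs] at h3

end DisP

theorem dis (h1 : S_PRE) (h2 : S_BUMP) (h3 : S_SW) : S_DIS := by
  intro X D _ _ _ _ _ _ _ _ _ _ _ _ C hT m hm x f g hf hg
  obtain ⟨p1, p2, p3, p4, p5⟩ := h1 X D C hT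
  have hreg : m.Regular := hm.1
  have int : ∀ u : X → ℝ, CC u → Integrable u m := fun u hu =>
    hu.1.integrable_of_hasCompactSupport hu.2
  have hcont : Continuous fun y => C.pi x y :=
    C.pi_continuous.comp (continuous_const.prodMk continuous_id)
  -- continuity of the pieces
  have hTx : Continuous fun y => T C (C.pi x y) g x :=
    (p4 g hg).comp (by fun_prop : Continuous fun y : X => (x, C.pi x y))
  have hfx : CC fun y => f (C.pi x y) := p2 x f hf
  have hA : CC fun y => f (C.pi x y) * T C (C.pi x y) g x := ⟨hfx.1.mul hTx, hfx.2.mul_right⟩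
  have hB : CC fun y => f (C.pi x y) * g y := ⟨hfx.1.mul hg.1, hfx.2.mul_right⟩
  have habsf : Integrable (fun y => |f (C.pi x y)|) m := (int _ hfx).abs
  have habsg : Integrable (fun y => |g y|) m := (int _ hg).abs
  set K : ℝ := (∫ y, |f (C.pi x y)| ∂m) + ∫ y, |g y| ∂m with hK
  have hK0 : 0 ≤ K := add_nonneg (integral_nonneg fun _ => abs_nonneg _)
    (integral_nonneg fun _ => abs_nonneg _)
  have main : ∀ ε : ℝ, 0 < ε →
      |(∫ y, f (C.pi x y) * T C (C.pi x y) g x ∂m) - ∫ y, f (C.pi x y) * g y ∂m| ≤ ε * K := by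
    intro ε hε
    obtain ⟨φ, hφ, hφ0, hφi, hc, hb1, hb2⟩ := h2 X D C hT m hm x f g hf hg ε hε
    have hφx : CC fun y => φ (C.pi x y) := p2 x φ hφ
    set c : ℝ := ∫ y, φ (C.pi x y) ∂m with hcdef
    have hsw := h3 X D C hT m hm x f φ g hf hφ hg hφi
    -- first estimate
    have e1 : |(∫ z, f (C.pi x z) * (∫ y, φ (C.pi x y) * T C (C.pi x z) g y ∂m) ∂m) -
        ∫ z, c * (f (C.pi x z) * T C (C.pi x z) g x) ∂m| ≤ ∫ z, ε * c * |f (C.pi x z)| ∂m := by
      refine DisP.key m _ _ _ ?_ ((int _ hA).const_mul c) (habsf.const_mul _) ?_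
      · refine (hfx.1.aestronglyMeasurable).mul ?_
        have hc2 : Continuous fun q : X × X => φ (C.pi x q.2) * T C (C.pi x q.1) g q.2 := by
          refine (hφx.1.comp continuous_snd).mul ?_
          exact (p4 g hg).comp (continuous_snd.prodMk (hcont.comp continuous_fst))
        exact (hc2.stronglyMeasurable.integral_prod_right').aestronglyMeasurable
      · intro z
        by_cases hz : f (C.pi x z) = 0
        · simp [hz]
        · have i1 : |(∫ y, φ (C.pi x y) * T C (C.pi x z) g y ∂m) -
              ∫ y, φ (C.pi x y) * T C (C.pi x z) g x ∂m| ≤ ∫ y, ε * φ (C.pi x y) ∂m := by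
            refine DisP.key m _ _ _ ?_ ((int _ hφx).mul_const _) ((int _ hφx).const_mul _) ?_
            · exact (hφx.1.mul (p3 _ g hg).1).aestronglyMeasurable
            · intro y
              by_cases hy : φ (C.pi x y) = 0
              · simp [hy]
              · rw [← mul_sub, abs_mul, abs_of_nonneg (hφ0 _), mul_comm ε]
                exact mul_le_mul_of_nonneg_left (hb1 y _ hy hz) (hφ0 _)
          rw [integral_mul_const, integral_const_mul, ← hcdef] at i1
          have : f (C.pi x z) * (∫ y, φ (C.pi x y) * T C (C.pi x z) g y ∂m) -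
              c * (f (C.pi x z) * T C (C.pi x z) g x) =
              f (C.pi x z) * ((∫ y, φ (C.pi x y) * T C (C.pi x z) g y ∂m) -
                c * T C (C.pi x z) g x) := by ring
          rw [this, abs_mul, mul_comm]
          exact mul_le_mul_of_nonneg_right i1 (abs_nonneg _)
    -- second estimate
    have e2 : |(∫ y, g y * (∫ z, φ (C.pi x z) * tr C.H f (C.pi x z) (C.pi x y) ∂m) ∂m) -
        ∫ y, c * (f (C.pi x y) * g y) ∂m| ≤ ∫ y, ε * c * |g y| ∂m := by
      refine DisP.key m _ _ _ ?_ ((int _ hB).const_mul c) (habsg.const_mul _) ?_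
      · refine (hg.1.aestronglyMeasurable).mul ?_
        have hc2 : Continuous fun q : X × X => φ (C.pi x q.2) * tr C.H f (C.pi x q.2) (C.pi x q.1) := by
          refine (hφx.1.comp continuous_snd).mul ?_
          exact (p5 f hf).comp ((hcont.comp continuous_snd).prodMk (hcont.comp continuous_fst))
        exact (hc2.stronglyMeasurable.integral_prod_right').aestronglyMeasurable
      · intro y
        by_cases hz : g y = 0
        · simp [hz]
        · have i1 : |(∫ z, φ (C.pi x z) * tr C.H f (C.pi x z) (C.pi x y) ∂m) -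
              ∫ z, φ (C.pi x z) * f (C.pi x y) ∂m| ≤ ∫ z, ε * φ (C.pi x z) ∂m := by
            refine DisP.key m _ _ _ ?_ ((int _ hφx).mul_const _) ((int _ hφx).const_mul _) ?_
            · refine (hφx.1.mul ?_).aestronglyMeasurable
              exact (p5 f hf).comp (hcont.prodMk continuous_const)
            · intro z
              by_cases hy : φ (C.pi x z) = 0
              · simp [hy]
              · rw [← mul_sub, abs_mul, abs_of_nonneg (hφ0 _), mul_comm ε]
                exact mul_le_mul_of_nonneg_left (hb2 _ y hy hz) (hφ0 _)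
          rw [integral_mul_const, integral_const_mul, ← hcdef] at i1
          have : g y * (∫ z, φ (C.pi x z) * tr C.H f (C.pi x z) (C.pi x y) ∂m) -
              c * (f (C.pi x y) * g y) =
              g y * ((∫ z, φ (C.pi x z) * tr C.H f (C.pi x z) (C.pi x y) ∂m) -
                c * f (C.pi x y)) := by ring
          rw [this, abs_mul, mul_comm]
          exact mul_le_mul_of_nonneg_right i1 (abs_nonneg _)
    rw [hsw] at e1
    rw [integral_const_mul, integral_const_mul] at e1 e2
    set A := ∫ y, f (C.pi x y) * T C (C.pi x y) g x ∂m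
    set B := ∫ y, f (C.pi x y) * g y ∂m
    have e3 : c * |A - B| ≤ c * (ε * K) := by
      rw [← abs_of_pos hc, ← abs_mul, abs_of_pos hc]
      rw [abs_le] at e1 e2 ⊢
      constructor <;> nlinarith [e1.1, e1.2, e2.1, e2.2]
    exact le_of_mul_le_mul_left e3 hc
  by_contra hne
  have hpos : 0 < |(∫ y, f (C.pi x y) * T C (C.pi x y) g x ∂m) - ∫ y, f (C.pi x y) * g y ∂m| :=
    abs_pos.mpr (sub_ne_zero.mpr hne)
  have h5 := main (|(∫ y, f (C.pi x y) * T C (C.pi x y) g x ∂m) - ∫ y, f (C.pi x y) * g y ∂m| /
    (2 * (K + 1))) (by positivity)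
  rw [div_mul_eq_mul_div, le_div_iff₀ (by positivity)] at h5
  nlinarith

end Pool.Agent.R722.CA
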