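import Pool.Agent.R722.CA.Stm

/-! piece CA-EQ: the image measures do not depend on the point -/

set_option autoImplicit false

namespace Pool.Agent.R722.CA

open MeasureTheory Pool.R874.Assoc

theorem eq_ (h1 : S_UN) (h2 : S_FS) (h3 : S_PI) (h4 : S_PRE) (h5 : S_ADJ) (h6 : S_DIS) : S_EQ := by
  intro X D _ _ _ _ _ _ _ _ _ _ _ _ C hT1 hcomm m hm x x' φ hφ
  obtain ⟨-, -, hpi, -⟩ := h3 X D C hT1
  obtain ⟨-, hcc, -, -, -⟩ := h4 X D C hT1
  obtain ⟨-, hadj⟩ := h5 X D C hT1 m hm
  have hdis := h6 X D C hT1 m hm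
  set l : D := C.pi x x' with hl
  -- the cut off function
  have hS : IsCompact (⋃ h ∈ tsupport φ, (C.H.conv l h : Measure D).support) := by
    refine h1 D D (fun h => (C.H.conv l h : Measure D).support) ?_
      (fun h => C.H.support_compact l h) (tsupport φ) hφ.2
    intro U hU
    have h7 := C.H.support_continuous U hU
    have hc : Continuous (fun h : D => (l, h)) := by fun_prop
    exact ⟨h7.1.preimage hc, h7.2.preimage hc⟩
  obtain ⟨f, hf1, -, hfc, -⟩ := exists_continuous_one_zero_of_isCompact hS isClosed_empty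
    (Set.disjoint_empty _)
  have hf : CC (f : D → ℝ) := ⟨f.continuous, hfc⟩
  have htr : ∀ h : D, φ h ≠ 0 → tr C.H f l h = 1 := by
    intro h hh
    have hh' : h ∈ tsupport φ := subset_tsupport φ hh
    refine (h2 D (C.H.conv l h : Measure D)).2 f 1 (fun t ht => ?_)
    exact hf1 (Set.mem_biUnion hh' ht)
  have hcomm' : ∀ (g : D → ℝ) (a b : D), tr C.H g a b = tr C.H g b a := by
    intro g a b
    unfold tr
    rw [hcomm a b]
  -- step I
  have e1 : ∫ y, φ (C.pi x' y) ∂m = ∫ y, φ (C.pi x' y) * f (C.pi x y) ∂m := by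
    rw [← hdis x' φ (fun y => f (C.pi x y)) hφ (hcc x f hf)]
    refine integral_congr_ae (Filter.Eventually.of_forall (fun y => ?_))
    show φ (C.pi x' y) = φ (C.pi x' y) * T C (C.pi x' y) (fun y => f (C.pi x y)) x'
    have e : T C (C.pi x' y) (fun y => f (C.pi x y)) x' = tr C.H f l (C.pi x' y) :=
      hT1 x x' (C.pi x' y) f hf.1 hf.2
    rw [e]
    by_cases h0 : φ (C.pi x' y) = 0
    · rw [h0, zero_mul]
    · rw [htr _ h0, mul_one]
  -- step II
  have e2 : ∫ y, φ (C.pi x y) ∂m = ∫ y, f (C.pi x y) * φ (C.pi x' y) ∂m := by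
    rw [← hdis x f (fun y => φ (C.pi x' y)) hf (hcc x' φ hφ)]
    have e3 : ∫ y, f (C.pi x y) * T C (C.pi x y) (fun y => φ (C.pi x' y)) x ∂m =
        ∫ y, tr C.H φ (C.pi x y) (C.H.inv l) * f (C.pi x y) ∂m := by
      refine integral_congr_ae (Filter.Eventually.of_forall (fun y => ?_))
      show f (C.pi x y) * T C (C.pi x y) (fun y => φ (C.pi x' y)) x = _
      have e : T C (C.pi x y) (fun y => φ (C.pi x' y)) x = tr C.H φ (C.pi x' x) (C.pi x y) :=
        hT1 x' x (C.pi x y) φ hφ.1 hφ.2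
      rw [e, hpi x x', ← hl, hcomm' φ _ (C.pi x y), mul_comm]
    rw [e3, hadj x l φ f hφ hf]
    refine integral_congr_ae (Filter.Eventually.of_forall (fun y => ?_))
    show φ (C.pi x y) = φ (C.pi x y) * tr C.H f (C.pi x y) l
    by_cases h0 : φ (C.pi x y) = 0
    · rw [h0, zero_mul]
    · rw [hcomm', htr _ h0, mul_one]
  rw [e1, e2]
  refine integral_congr_ae (Filter.Eventually.of_forall (fun y => ?_))
  show φ (C.pi x' y) * f (C.pi x y) = f (C.pi x y) * φ (C.pi x' y)
  exact mul_comm _ _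

end Pool.Agent.R722.CA
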