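import Pool.Agent.R722.CA.Stm

/-!
# MP_3f01e7_al (project CA), piece INV: the image measure is invariant
-/

set_option autoImplicit false

namespace Pool.Agent.R722.CA

open MeasureTheory Pool.R874.Assoc Set

namespace InvAux

theorem vc_left {X D Y : Type} [TopologicalSpace X] [TopologicalSpace D] [TopologicalSpace Y]
    (S : X × D → Set Y) (h : VietorisContinuous S) (d : D) :
    VietorisContinuous fun x : X => S (x, d) := by
  intro U hU
  have hc : Continuous fun x : X => (x, d) := by fun_prop
  exact ⟨(h U hU).1.preimage hc, (h U hU).2.preimage hc⟩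

end InvAux

theorem inv_ (h1 : S_UN) (h2 : S_FS) (h3 : S_PI) (h4 : S_PRE) : S_INV := by
  intro X D _ _ _ _ _ _ _ _ _ _ _ _ C hT1 m hm x h f hf
  obtain ⟨-, hp2, hp3, -, -⟩ := h4 X D C hT1
  have hG : CC fun y => f (C.pi x y) := hp2 x f hf
  have hTG : CC (T C h fun y => f (C.pi x y)) := hp3 h _ hG
  set G : X → ℝ := fun y => f (C.pi x y) with hGd
  have hU : IsCompact (⋃ z ∈ tsupport G, (C.K z (C.H.inv h) : Measure X).support) :=
    h1 X X (fun z => (C.K z (C.H.inv h) : Measure X).support)
      (InvAux.vc_left _ C.support_continuous (C.H.inv h))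
      (fun z => C.support_compact z _) _ hG.2
  have hK : IsCompact ((tsupport G ∪ tsupport (T C h G)) ∪
      ⋃ z ∈ tsupport G, (C.K z (C.H.inv h) : Measure X).support) :=
    (hG.2.isCompact.union hTG.2.isCompact).union hU
  obtain ⟨χ, hχ1, -, hχc, -⟩ :=
    exists_continuous_one_zero_of_isCompact hK isClosed_empty (disjoint_empty _)
  have hA := hm.2.2 h (χ : X → ℝ) G χ.continuous hχc hG.1 hG.2
  have e1 : ∀ y, (∫ z, χ z ∂(C.K y (C.H.inv h) : Measure X)) * G y = G y := by
    intro y
    by_cases hy : G y = 0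
    · rw [hy, mul_zero]
    · have hyt : y ∈ tsupport G := subset_tsupport G hy
      have : ∫ z, χ z ∂(C.K y (C.H.inv h) : Measure X) = 1 := by
        refine (h2 X (C.K y (C.H.inv h) : Measure X)).2 (fun z => χ z) 1 ?_
        intro z hz
        exact hχ1 (Or.inr (mem_biUnion hyt hz))
      rw [this, one_mul]
  have e2 : ∀ y, χ y * (∫ z, G z ∂(C.K y h : Measure X)) = T C h G y := by
    intro y
    change χ y * T C h G y = T C h G y
    by_cases hy : T C h G y = 0
    · rw [hy, mul_zero]
    · have hyt : y ∈ tsupport (T C h G) := subset_tsupport _ hy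
      have : χ y = 1 := hχ1 (Or.inl (Or.inr hyt))
      rw [this, one_mul]
  have e3 : ∀ y, T C h G y = tr C.H f (C.pi x y) h := by
    intro y
    exact hT1 x y h f hf.1 hf.2
  simp only [e1, e2, e3] at hA
  exact hA.symm

end Pool.Agent.R722.CA
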