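import Pool.Agent.R722.CA.Stm

/-!
# MP_3f01e7_al (project CA): assembly
-/

set_option autoImplicit false

namespace Pool.Agent.R722.CA

open MeasureTheory Pool.R874.Assoc

theorem main (h1 : S_PRE) (h2 : S_INV) (h3 : S_DIS) (h4 : S_EQ) : S_MAIN := by
  intro X D _ _ _ _ _ _ _ _ _ _ _ _ _ C hc hT
  obtain ⟨m, hm⟩ := C.exists_adapted
  obtain ⟨x0⟩ := (inferInstance : Nonempty X)
  have hreg : m.Regular := hm.1
  have hpos : m.IsOpenPosMeasure := hm.2.1
  obtain ⟨p1, p2, p3, p4, p5⟩ := h1 X D C hT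
  have hcont : Continuous fun y => C.pi x0 y :=
    C.pi_continuous.comp (continuous_const.prodMk continuous_id)
  have hmeas : Measurable fun y => C.pi x0 y := hcont.measurable
  have hint : ∀ φ : D → ℝ, Continuous φ →
      ∫ h, φ h ∂(m.map fun y => C.pi x0 y) = ∫ y, φ (C.pi x0 y) ∂m := by
    intro φ hφ
    exact integral_map hmeas.aemeasurable hφ.aestronglyMeasurable
  refine ⟨m, m.map fun y => C.pi x0 y, hm, ⟨?_, ?_, ?_⟩, ?_⟩
  · intro h0
    have h5 := (Measure.map_eq_zero_iff hmeas.aemeasurable).mp h0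
    have h6 : m Set.univ ≠ 0 := isOpen_univ.measure_ne_zero m ⟨x0, trivial⟩
    rw [h5] at h6
    exact h6 rfl
  · have : IsFiniteMeasureOnCompacts (m.map fun y => C.pi x0 y) := by
      constructor
      intro S hS
      rw [Measure.map_apply hmeas hS.measurableSet]
      exact (p1 x0 S hS).measure_lt_top
    have h7 : IsLocallyFiniteMeasure (m.map fun y => C.pi x0 y) := inferInstance
    infer_instance
  · intro a f hf1 hf2
    have h5 := h2 X D C hT m hm x0 a f ⟨hf1, hf2⟩
    have h6 : Continuous fun b => tr C.H f a b := (p5 f ⟨hf1, hf2⟩).comp (by fun_prop : Continuous fun b : D => (a, b))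
    have h8 := hint _ h6
    rw [hint f hf1, ← h5]
    refine h8.trans ?_
    refine integral_congr_ae (Filter.Eventually.of_forall fun y => ?_)
    show tr C.H f a (C.pi x0 y) = tr C.H f (C.pi x0 y) a
    unfold tr
    rw [hc]
  · intro f g hf1 hf2 hg1 hg2 x
    have h5 : Continuous fun h => T C h g x :=
      (p4 g ⟨hg1, hg2⟩).comp (by fun_prop : Continuous fun h : D => (x, h))
    have h6 : CC fun h => T C h g x * f h := ⟨h5.mul hf1, hf2.mul_left⟩
    have h7 := h4 X D C hT hc m hm x x0 _ h6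
    have h8 := h3 X D C hT m hm x f g ⟨hf1, hf2⟩ ⟨hg1, hg2⟩
    have h9 := hint _ h6.1
    refine h9.trans (h7.trans ?_)
    rw [← h8]
    refine integral_congr_ae (Filter.Eventually.of_forall fun y => ?_)
    exact mul_comm _ _

end Pool.Agent.R722.CA
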