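import Pool.Agent.R722.CA.Stm

set_option autoImplicit false

namespace Pool.Agent.R722.CA

open MeasureTheory Pool.R874.Assoc

namespace PI

theorem mem_supp_dirac {Y : Type} [TopologicalSpace Y] [MeasurableSpace Y] [BorelSpace Y]
    [T2Space Y] (x y : Y) : y ∈ (Measure.dirac x).support ↔ y = x := by
  rw [Measure.mem_support_iff_forall]
  constructor
  · intro h
    by_contra hne
    have h1 := h {x}ᶜ (isOpen_compl_singleton.mem_nhds hne)
    rw [Measure.dirac_apply' _ (measurableSet_singleton x).compl] at h1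
    simp at h1
  · rintro rfl U hU
    rw [Measure.dirac_apply_of_mem (mem_of_mem_nhds hU)]
    exact one_pos

theorem pos_int {Y : Type} [TopologicalSpace Y] [MeasurableSpace Y] [BorelSpace Y]
    (μ : Measure Y) [IsProbabilityMeasure μ] (g : Y → ℝ) (hg : Continuous g) (C : ℝ)
    (hC : ∀ y, ‖g y‖ ≤ C) (h0 : ∀ y, 0 ≤ g y) (x : Y) (hx : x ∈ μ.support) (hgx : 0 < g x) :
    0 < ∫ y, g y ∂μ := by
  have hint : Integrable g μ :=
    Integrable.of_bound hg.aestronglyMeasurable C (Filter.Eventually.of_forall hC)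
  rw [integral_pos_iff_support_of_nonneg h0 hint]
  rw [Measure.mem_support_iff_forall] at hx
  refine lt_of_lt_of_le (hx (g ⁻¹' Set.Ioi 0) ((isOpen_Ioi.preimage hg).mem_nhds hgx)) ?_
  apply measure_mono
  intro y hy
  exact ne_of_gt hy

end PI

open PI in
theorem pi_ : S_PI := by
  intro X D _ _ _ _ _ _ _ _ _ _ _ _ C hT
  have h1 : ∀ x, C.pi x x = C.H.e := by
    intro x
    rw [← C.mem_support, C.K_e, mem_supp_dirac]
  have h2 : ∀ x y, C.pi x y = C.H.e → y = x := by
    intro x y h
    rwa [← C.mem_support, C.K_e, mem_supp_dirac] at h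
  have h4 : C.H.inv C.H.e = C.H.e := by
    have h := (C.H.e_mem_support C.H.e C.H.e).1 (by rw [C.H.e_conv, mem_supp_dirac])
    exact h.symm
  refine ⟨h1, h2, ?_, h4⟩
  intro x y
  rw [← C.H.e_mem_support, Measure.mem_support_iff_forall]
  intro U hU
  by_contra hcon
  have hcon : (C.H.conv (C.pi x y) (C.pi y x) : Measure D) U = 0 := by
    simpa using hcon
  obtain ⟨V, hVU, hVo, heV⟩ := mem_nhds_iff.1 hU
  obtain ⟨f, hf1, hf0, hfc, hf01⟩ := exists_continuous_one_zero_of_isCompact
    (isCompact_singleton (x := C.H.e)) hVo.isClosed_compl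
    (Set.disjoint_left.2 (fun a ha hb => hb (by rw [Set.mem_singleton_iff.1 ha]; exact heV)))
  have hT1 := hT x y (C.pi y x) f f.continuous hfc
  have hR : ∫ t, f t ∂(C.H.conv (C.pi x y) (C.pi y x) : Measure D) = 0 := by
    apply integral_eq_zero_of_ae
    have : ∀ᵐ t ∂(C.H.conv (C.pi x y) (C.pi y x) : Measure D), t ∉ V :=
      measure_mono_null (fun t ht => hVU (not_not.1 ht)) hcon
    filter_upwards [this] with t ht
    exact hf0 ht
  have hL : 0 < ∫ z, f (C.pi x z) ∂(C.K y (C.pi y x) : Measure X) := by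
    refine pos_int _ (fun z => f (C.pi x z)) ?_ 1 ?_ (fun z => (hf01 _).1) x ?_ ?_
    · exact f.continuous.comp (C.pi_continuous.comp (by fun_prop : Continuous fun z => (x, z)))
    · intro z
      rw [Real.norm_of_nonneg (hf01 _).1]
      exact (hf01 _).2
    · exact (C.mem_support _ _ _).2 rfl
    · simp only [h1]
      have h5 := hf1 (Set.mem_singleton C.H.e)
      rw [h5]
      exact one_pos
  rw [hT1, hR] at hL
  exact lt_irrefl _ hL

end Pool.Agent.R722.CA
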