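import Pool.Agent.R722.CA.Stm

set_option autoImplicit false

namespace Pool.Agent.R722.CA

open MeasureTheory Pool.R874.Assoc

namespace PREaux

lemma vc_comp {Z Z' Y : Type} [TopologicalSpace Z] [TopologicalSpace Z'] [TopologicalSpace Y]
    {F : Z → Set Y} (hF : VietorisContinuous F) {φ : Z' → Z} (hφ : Continuous φ) :
    VietorisContinuous fun z => F (φ z) := by
  intro U hU
  obtain ⟨h1, h2⟩ := hF U hU
  exact ⟨h1.preimage hφ, h2.preimage hφ⟩

end PREaux

theorem pre (h1 : S_UN) (h2 : S_CT) (h3 : S_FS) (h4 : S_PI) : S_PRE := by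
  intro X D _ _ _ _ _ _ _ _ _ _ _ _ C hT1
  have hS : ∀ (x : X) (S : Set D), IsCompact S → IsCompact {y | C.pi x y ∈ S} := by
    intro x S hS
    have e : {y | C.pi x y ∈ S} = ⋃ h ∈ S, (C.K x h : Measure X).support := by
      ext y
      simp only [Set.mem_setOf_eq, Set.mem_iUnion, C.mem_support]
      constructor
      · intro h; exact ⟨_, h, rfl⟩
      · rintro ⟨h, hh, e⟩; rw [e]; exact hh
    rw [e]
    exact h1 D X (fun h => (C.K x h : Measure X).support)
      (PREaux.vc_comp C.support_continuous (φ := fun h => (x, h))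
        (continuous_const.prodMk continuous_id)) (fun h => C.support_compact x h) S hS
  refine ⟨hS, ?_, ?_, ?_, ?_⟩
  · intro x f hf
    refine ⟨hf.1.comp (C.pi_continuous.comp (continuous_const.prodMk continuous_id)), ?_⟩
    apply HasCompactSupport.intro (hS x (tsupport f) hf.2)
    intro y hy
    by_contra hne
    exact hy (subset_tsupport f hne)
  · intro h g hg
    refine ⟨h2 X X (fun x => C.K x h)
      (C.K_continuous.comp (continuous_id.prodMk continuous_const)) g hg, ?_⟩
    have hK := h1 X X (fun z => (C.K z (C.H.inv h) : Measure X).support)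
      (PREaux.vc_comp C.support_continuous (φ := fun z => (z, C.H.inv h))
        (continuous_id.prodMk continuous_const)) (fun z => C.support_compact z _)
        (tsupport g) hg.2
    apply HasCompactSupport.intro hK
    intro y hy
    refine (h3 X (C.K y h : Measure X)).2 g 0 ?_
    intro z hz
    by_contra hne
    apply hy
    rw [C.mem_support] at hz
    simp only [Set.mem_iUnion]
    refine ⟨z, subset_tsupport g hne, ?_⟩
    rw [C.mem_support, (h4 X D C hT1).2.2.1 y z, hz]
  · intro g hg
    exact h2 (X × D) X (fun p => C.K p.1 p.2) C.K_continuous g hg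
  · intro f hf
    exact h2 (D × D) D (fun p => C.H.conv p.1 p.2) C.H.conv_continuous f hf

end Pool.Agent.R722.CA
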