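import Pool.Agent.R722.CA.Stm

/-! Piece CA-SW: the exchange of two integrals. -/

set_option autoImplicit false

namespace Pool.Agent.R722.CA

open MeasureTheory Pool.R874.Assoc

namespace SWaux

variable {D : Type} [TopologicalSpace D] [MeasurableSpace D] [BorelSpace D]

theorem tr_inv (H : Hypergroup D) (φ : D → ℝ) (hφ : Continuous φ)
    (hinv : ∀ l, φ (H.inv l) = φ l) (a b : D) : tr H φ a (H.inv b) = tr H φ b (H.inv a) := by
  have h1 := H.conv_inv a (H.inv b)
  rw [H.inv_inv] at h1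
  unfold tr
  rw [← h1, integral_map H.inv_continuous.measurable.aemeasurable hφ.aestronglyMeasurable]
  simp only [hinv]

end SWaux

open SWaux in
theorem sw (h1 : S_PRE) (h2 : S_ADJ) : S_SW := by
  intro X D _ _ _ _ _ _ _ _ _ _ _ _ C hT1 m hm x f φ g hf hφ hg hinv
  obtain ⟨-, p2, -, -, p5⟩ := h1 X D C hT1
  obtain ⟨a1, a2⟩ := h2 X D C hT1 m hm
  haveI := hm.1
  have e1 : ∀ z, f (C.pi x z) * (∫ y, φ (C.pi x y) * T C (C.pi x z) g y ∂m) =
      ∫ y, f (C.pi x z) * (tr C.H φ (C.pi x y) (C.H.inv (C.pi x z)) * g y) ∂m := by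
    intro z
    rw [a1 x (C.pi x z) φ g hφ hg, integral_const_mul]
  have e2 : ∀ y, g y * (∫ z, φ (C.pi x z) * tr C.H f (C.pi x z) (C.pi x y) ∂m) =
      ∫ z, f (C.pi x z) * (tr C.H φ (C.pi x y) (C.H.inv (C.pi x z)) * g y) ∂m := by
    intro y
    rw [← a2 x (C.pi x y) φ f hφ hf, ← integral_const_mul]
    refine integral_congr_ae (Filter.Eventually.of_forall fun z => ?_)
    show g y * (tr C.H φ (C.pi x z) (C.H.inv (C.pi x y)) * f (C.pi x z)) =
      f (C.pi x z) * (tr C.H φ (C.pi x y) (C.H.inv (C.pi x z)) * g y)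
    rw [tr_inv C.H φ hφ.1 hinv (C.pi x y) (C.pi x z)]
    ring
  simp only [e1, e2]
  have hpx : Continuous fun z => C.pi x z :=
    C.pi_continuous.comp (Continuous.prodMk_right x)
  refine integral_integral_swap_of_hasCompactSupport
    (f := fun z y => f (C.pi x z) * (tr C.H φ (C.pi x y) (C.H.inv (C.pi x z)) * g y)) ?_ ?_
  · have c1 : Continuous fun q : X × X => f (C.pi x q.1) := hf.1.comp (hpx.comp continuous_fst)
    have c2 : Continuous fun q : X × X => (C.pi x q.2, C.H.inv (C.pi x q.1)) :=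
      (hpx.comp continuous_snd).prodMk (C.H.inv_continuous.comp (hpx.comp continuous_fst))
    have c3 : Continuous fun q : X × X => tr C.H φ (C.pi x q.2) (C.H.inv (C.pi x q.1)) :=
      (p5 φ hφ).comp c2
    exact c1.mul (c3.mul (hg.1.comp continuous_snd))
  · refine HasCompactSupport.intro ((p2 x f hf).2.isCompact.prod hg.2.isCompact) ?_
    rintro ⟨z, y⟩ hzy
    show f (C.pi x z) * (tr C.H φ (C.pi x y) (C.H.inv (C.pi x z)) * g y) = 0
    rw [Set.mem_prod, not_and_or] at hzy
    rcases hzy with h | h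
    · have h3 : f (C.pi x z) = 0 := image_eq_zero_of_notMem_tsupport (f := fun y => f (C.pi x y)) h
      rw [h3, zero_mul]
    · rw [image_eq_zero_of_notMem_tsupport h, mul_zero, mul_zero]

end Pool.Agent.R722.CA
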