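import Pool.Agent.R874.CASDefs

/-!
# MP_3f01e7_al (project CA): a commutative continuous association scheme with (T1) has (T2)

Statements of the pieces; complete proofs are in `notes.md`.
-/

set_option autoImplicit false

namespace Pool.Agent.R722.CA

open MeasureTheory Pool.R874.Assoc

/-- `T_h g x` -/
noncomputable def T {X D : Type} [TopologicalSpace X] [MeasurableSpace X] [BorelSpace X]
    [TopologicalSpace D] [MeasurableSpace D] [BorelSpace D] (C : CAS X D) (h : D) (g : X → ℝ)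
    (x : X) : ℝ := ∫ y, g y ∂(C.K x h : Measure X)

/-- `f (a * b)` -/
noncomputable def tr {D : Type} [TopologicalSpace D] [MeasurableSpace D] [BorelSpace D]
    (H : Hypergroup D) (f : D → ℝ) (a b : D) : ℝ := ∫ t, f t ∂(H.conv a b : Measure D)

/-- continuous with compact support -/
def CC {Y : Type} [TopologicalSpace Y] (f : Y → ℝ) : Prop := Continuous f ∧ HasCompactSupport f

/-- piece CA-UN -/
def S_UN : Prop := ∀ (Z Y : Type) [TopologicalSpace Z] [TopologicalSpace Y] (F : Z → Set Y),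
  VietorisContinuous F → (∀ z, IsCompact (F z)) → ∀ S : Set Z, IsCompact S →
  IsCompact (⋃ z ∈ S, F z)

/-- piece CA-CT -/
def S_CT : Prop := ∀ (Z Y : Type) [TopologicalSpace Z] [TopologicalSpace Y] [MeasurableSpace Y]
  [BorelSpace Y] (κ : Z → ProbabilityMeasure Y), Continuous κ → ∀ g : Y → ℝ, CC g →
  Continuous fun z => ∫ y, g y ∂(κ z : Measure Y)

/-- piece CA-FS: the support has full measure; the integral of a function that is constant on the
support -/
def S_FS : Prop := ∀ (Y : Type) [TopologicalSpace Y] [SecondCountableTopology Y]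
  [MeasurableSpace Y] [BorelSpace Y] (μ : Measure Y) [IsProbabilityMeasure μ],
  (∀ᵐ y ∂μ, y ∈ μ.support) ∧
  ∀ (g : Y → ℝ) (c : ℝ), (∀ y ∈ μ.support, g y = c) → ∫ y, g y ∂μ = c

/-- piece CA-PI -/
def S_PI : Prop := ∀ (X D : Type) [TopologicalSpace X] [MeasurableSpace X] [BorelSpace X]
  [TopologicalSpace D] [MeasurableSpace D] [BorelSpace D] [SecondCountableTopology X]
  [LocallyCompactSpace X] [T2Space X] [SecondCountableTopology D] [LocallyCompactSpace D]
  [T2Space D] (C : CAS X D), C.T1 →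
  (∀ x, C.pi x x = C.H.e) ∧ (∀ x y, C.pi x y = C.H.e → y = x) ∧
  (∀ x y, C.pi y x = C.H.inv (C.pi x y)) ∧ C.H.inv C.H.e = C.H.e

/-- piece CA-PRE -/
def S_PRE : Prop := ∀ (X D : Type) [TopologicalSpace X] [MeasurableSpace X] [BorelSpace X]
  [TopologicalSpace D] [MeasurableSpace D] [BorelSpace D] [SecondCountableTopology X]
  [LocallyCompactSpace X] [T2Space X] [SecondCountableTopology D] [LocallyCompactSpace D]
  [T2Space D] (C : CAS X D), C.T1 →
  (∀ (x : X) (S : Set D), IsCompact S → IsCompact {y | C.pi x y ∈ S}) ∧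
  (∀ (x : X) (f : D → ℝ), CC f → CC fun y => f (C.pi x y)) ∧
  (∀ (h : D) (g : X → ℝ), CC g → CC (T C h g)) ∧
  (∀ g : X → ℝ, CC g → Continuous fun p : X × D => T C p.2 g p.1) ∧
  (∀ f : D → ℝ, CC f → Continuous fun p : D × D => tr C.H f p.1 p.2)

/-- piece CA-ADJ -/
def S_ADJ : Prop := ∀ (X D : Type) [TopologicalSpace X] [MeasurableSpace X] [BorelSpace X]
  [TopologicalSpace D] [MeasurableSpace D] [BorelSpace D] [SecondCountableTopology X]
  [LocallyCompactSpace X] [T2Space X] [SecondCountableTopology D] [LocallyCompactSpace D]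
  [T2Space D] (C : CAS X D), C.T1 → ∀ m : Measure X, IsAdapted C.K C.H.inv m →
  (∀ (x : X) (h : D) (f : D → ℝ) (g : X → ℝ), CC f → CC g →
    ∫ y, f (C.pi x y) * T C h g y ∂m = ∫ y, tr C.H f (C.pi x y) (C.H.inv h) * g y ∂m) ∧
  (∀ (x : X) (h : D) (f g : D → ℝ), CC f → CC g →
    ∫ y, tr C.H f (C.pi x y) (C.H.inv h) * g (C.pi x y) ∂m =
      ∫ y, f (C.pi x y) * tr C.H g (C.pi x y) h ∂m)

/-- piece CA-INV -/
def S_INV : Prop := ∀ (X D : Type) [TopologicalSpace X] [MeasurableSpace X] [BorelSpace X]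
  [TopologicalSpace D] [MeasurableSpace D] [BorelSpace D] [SecondCountableTopology X]
  [LocallyCompactSpace X] [T2Space X] [SecondCountableTopology D] [LocallyCompactSpace D]
  [T2Space D] (C : CAS X D), C.T1 → ∀ m : Measure X, IsAdapted C.K C.H.inv m →
  ∀ (x : X) (h : D) (f : D → ℝ), CC f →
    ∫ y, tr C.H f (C.pi x y) h ∂m = ∫ y, f (C.pi x y) ∂m

/-- piece CA-BUMP -/
def S_BUMP : Prop := ∀ (X D : Type) [TopologicalSpace X] [MeasurableSpace X] [BorelSpace X]
  [TopologicalSpace D] [MeasurableSpace D] [BorelSpace D] [SecondCountableTopology X]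
  [LocallyCompactSpace X] [T2Space X] [SecondCountableTopology D] [LocallyCompactSpace D]
  [T2Space D] (C : CAS X D), C.T1 → ∀ m : Measure X, IsAdapted C.K C.H.inv m →
  ∀ (x : X) (f : D → ℝ) (g : X → ℝ), CC f → CC g → ∀ ε : ℝ, 0 < ε →
  ∃ φ : D → ℝ, CC φ ∧ (∀ l, 0 ≤ φ l) ∧ (∀ l, φ (C.H.inv l) = φ l) ∧
    0 < ∫ y, φ (C.pi x y) ∂m ∧
    (∀ (y : X) (h : D), φ (C.pi x y) ≠ 0 → f h ≠ 0 → |T C h g y - T C h g x| ≤ ε) ∧
    (∀ (h : D) (y : X), φ h ≠ 0 → g y ≠ 0 → |tr C.H f h (C.pi x y) - f (C.pi x y)| ≤ ε)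

/-- piece CA-SW: the exchange identity -/
def S_SW : Prop := ∀ (X D : Type) [TopologicalSpace X] [MeasurableSpace X] [BorelSpace X]
  [TopologicalSpace D] [MeasurableSpace D] [BorelSpace D] [SecondCountableTopology X]
  [LocallyCompactSpace X] [T2Space X] [SecondCountableTopology D] [LocallyCompactSpace D]
  [T2Space D] (C : CAS X D), C.T1 → ∀ m : Measure X, IsAdapted C.K C.H.inv m →
  ∀ (x : X) (f φ : D → ℝ) (g : X → ℝ), CC f → CC φ → CC g → (∀ l, φ (C.H.inv l) = φ l) →
    ∫ z, f (C.pi x z) * (∫ y, φ (C.pi x y) * T C (C.pi x z) g y ∂m) ∂m =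
      ∫ y, g y * (∫ z, φ (C.pi x z) * tr C.H f (C.pi x z) (C.pi x y) ∂m) ∂m

/-- piece CA-DIS: disintegration of `m` -/
def S_DIS : Prop := ∀ (X D : Type) [TopologicalSpace X] [MeasurableSpace X] [BorelSpace X]
  [TopologicalSpace D] [MeasurableSpace D] [BorelSpace D] [SecondCountableTopology X]
  [LocallyCompactSpace X] [T2Space X] [SecondCountableTopology D] [LocallyCompactSpace D]
  [T2Space D] (C : CAS X D), C.T1 → ∀ m : Measure X, IsAdapted C.K C.H.inv m →
  ∀ (x : X) (f : D → ℝ) (g : X → ℝ), CC f → CC g →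
    ∫ y, f (C.pi x y) * T C (C.pi x y) g x ∂m = ∫ y, f (C.pi x y) * g y ∂m

/-- piece CA-EQ: the image measures do not depend on the point -/
def S_EQ : Prop := ∀ (X D : Type) [TopologicalSpace X] [MeasurableSpace X] [BorelSpace X]
  [TopologicalSpace D] [MeasurableSpace D] [BorelSpace D] [SecondCountableTopology X]
  [LocallyCompactSpace X] [T2Space X] [SecondCountableTopology D] [LocallyCompactSpace D]
  [T2Space D] (C : CAS X D), C.T1 → (∀ a b : D, C.H.conv a b = C.H.conv b a) →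
  ∀ m : Measure X, IsAdapted C.K C.H.inv m →
  ∀ (x x' : X) (φ : D → ℝ), CC φ → ∫ y, φ (C.pi x' y) ∂m = ∫ y, φ (C.pi x y) ∂m

/-- the theorem -/
def S_MAIN : Prop := ∀ (X D : Type) [TopologicalSpace X] [MeasurableSpace X] [BorelSpace X]
  [TopologicalSpace D] [MeasurableSpace D] [BorelSpace D] [SecondCountableTopology X]
  [LocallyCompactSpace X] [T2Space X] [SecondCountableTopology D] [LocallyCompactSpace D]
  [T2Space D] [Nonempty X] (C : CAS X D), (∀ a b : D, C.H.conv a b = C.H.conv b a) → C.T1 → C.T2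

end Pool.Agent.R722.CA
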