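import Pool.Agent.R722.CA.Stm

set_option autoImplicit false

namespace Pool.Agent.R722.CA

open MeasureTheory Pool.R874.Assoc

theorem un : S_UN := by
  intro Z Y _ _ F hF hcomp S hS
  rw [isCompact_iff_finite_subcover]
  intro ι U hU hcov
  have h1 : ∀ z : Z, ∃ t : Finset ι, z ∈ S → F z ⊆ ⋃ i ∈ t, U i := by
    intro z
    by_cases hz : z ∈ S
    · obtain ⟨t, ht⟩ := (hcomp z).elim_finite_subcover U hU
        ((Set.subset_biUnion_of_mem hz).trans hcov)
      exact ⟨t, fun _ => ht⟩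
    · exact ⟨∅, fun h => absurd h hz⟩
  choose t ht using h1
  obtain ⟨s, hs1, hs2⟩ := hS.elim_nhds_subcover
    (fun z => {z' | F z' ⊆ ⋃ i ∈ t z, U i}) (fun z hz =>
      (hF _ (isOpen_biUnion fun i _ => hU i)).1.mem_nhds (ht z hz))
  classical
  refine ⟨s.biUnion t, ?_⟩
  intro y hy
  simp only [Set.mem_iUnion, exists_prop] at hy
  obtain ⟨z, hz, hy⟩ := hy
  have h2 := hs2 hz
  simp only [Set.mem_iUnion, exists_prop] at h2
  obtain ⟨w, hw, hzw⟩ := h2
  have h3 := hzw hy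
  simp only [Set.mem_iUnion, exists_prop] at h3
  obtain ⟨i, hi, hyi⟩ := h3
  simp only [Set.mem_iUnion, exists_prop, Finset.mem_biUnion]
  exact ⟨i, ⟨w, hw, hi⟩, hyi⟩

end Pool.Agent.R722.CA
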